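import Pool.Agent.H73.GWT.Stmts
import Pool.Agent.H55.GWP.WSA

set_option autoImplicit false

open Classical

namespace GWT

namespace PV2Aux

theorem ofn_nat (K : ℕ) (L : List ℕ) (h : ℕ) (hl : L.length = h) (hL : ∀ x ∈ L, x ≤ K) :
    ∃ f : Fin h → Fin (K + 1), List.ofFn (fun i => ((f i : Fin (K + 1)) : ℕ)) = L := by
  subst hl
  refine ⟨fun i => ⟨L.get i, Nat.lt_succ_of_le (hL _ (List.get_mem L i))⟩, ?_⟩
  exact List.ofFn_get L

theorem ofn_gen {α : Type*} (L : List α) (h : ℕ) (hl : L.length = h) :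
    ∃ f : Fin h → α, List.ofFn f = L := by
  subst hl
  exact ⟨L.get, List.ofFn_get L⟩

section code

variable {ι G V : Type*} [Fintype ι] [Group G] [MulAction G V] (C : Code ι G V)

theorem offs_len (w : ℕ → G) (F : List (ι × List ι)) (b : List ι) :
    (offs C w F b).length = F.length := by
  induction F with
  | nil => rfl
  | cons f F ih => simp only [offs, List.length_cons, ih]

theorem offs_le (w : ℕ → G) (F : List (ι × List ι)) (b : List ι) :
    ∀ x ∈ offs C w F b, x ≤ 2 * C.Λ := by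
  induction F with
  | nil => intro x hx; simp [offs] at hx
  | cons f F ih =>
    intro x hx
    simp only [offs, List.mem_cons] at hx
    rcases hx with rfl | hx
    · have h1 : pos C w f.1 (full F b) ≤ C.d C.o (W C w (full F b) • C.o) + C.Λ := by
        have h2 := dtri C.tree C.o (W C w (full F b) • C.o) (W C w (full F b) • C.c f.1 • C.o)
        rw [Code.ds, C.d1] at h2
        exact h2
      omega
    · exact ih x hx

/-- the finite set of codes -/
noncomputable def TT (ι : Type*) [Fintype ι] (K h r : ℕ) :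
    Finset (List ℕ × List ι × List ι) :=
  ((Finset.univ : Finset (Fin h → Fin (K + 1))).image
    (fun f => List.ofFn (fun i => ((f i : Fin (K + 1)) : ℕ)))) ×ˢ
  (((Finset.univ : Finset (Fin r → ι)).image (fun f => List.ofFn f)) ×ˢ
   ((Finset.univ : Finset (Fin r → ι)).image (fun f => List.ofFn f)))

theorem TT_card (K h r : ℕ) :
    (TT ι K h r).card ≤ (K + 1) ^ h * (Fintype.card ι ^ r * Fintype.card ι ^ r) := by
  unfold TT
  rw [Finset.card_product, Finset.card_product]
  have e1 : ((Finset.univ : Finset (Fin h → Fin (K + 1))).image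
      (fun f => List.ofFn (fun i => ((f i : Fin (K + 1)) : ℕ)))).card ≤ (K + 1) ^ h := by
    refine Finset.card_image_le.trans ?_
    rw [Finset.card_univ, Fintype.card_fun, Fintype.card_fin, Fintype.card_fin]
  have e2 : ((Finset.univ : Finset (Fin r → ι)).image (fun f => List.ofFn f)).card ≤
      Fintype.card ι ^ r := by
    refine Finset.card_image_le.trans ?_
    rw [Finset.card_univ, Fintype.card_fun, Fintype.card_fin]
  exact Nat.mul_le_mul e1 (Nat.mul_le_mul e2 e2)

theorem fibre (h3 : TUNStmt C) (h4 : INVStmt C) (w : ℕ → G) (n t t₁ t₂ : ℕ) (Q P : V)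
    (ht₁ : t₁ ≤ t) (ht₂ : t₂ ≤ t) (D : List (List ι) × List ι) :
    ({l : List ι | l.length = n ∧ (mask (St C w l) = D ∧ Tp C (W C w l) t₁ t₂ Q P)}.ncard) ≤
      (2 * C.Λ + 1) ^ D.1.length *
        (Fintype.card ι ^ (min (t + 1) D.1.length) *
          Fintype.card ι ^ (min (t + 1) D.1.length)) := by
  have hlen : ∀ l : List ι, mask (St C w l) = D → (St C w l).1.length = D.1.length := by
    intro l hl
    rw [← hl]
    simp [mask]
  refine le_trans ?_ (TT_card (ι := ι) (2 * C.Λ) D.1.length (min (t + 1) D.1.length))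
  rw [← Set.ncard_coe_finset]
  refine Set.ncard_le_ncard_of_injOn (fun l : List ι =>
    (offs C w (St C w l).1 (St C w l).2, ((St C w l).1.map Prod.fst).take (t + 1),
      ((St C w l).1.map Prod.fst).drop ((St C w l).1.length - (t + 1)))) ?_ ?_
      (Finset.finite_toSet _)
  · rintro l ⟨hl, hm, hT⟩
    have hh := hlen l hm
    simp only [TT, Finset.coe_product, Set.mem_prod, Finset.coe_image, Set.mem_image,
      Finset.coe_univ, Set.mem_univ, true_and]
    refine ⟨?_, ?_, ?_⟩
    · exact ofn_nat (2 * C.Λ) _ _ ((offs_len C w _ _).trans hh) (offs_le C w _ _)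
    · apply ofn_gen
      rw [List.length_take, List.length_map, hh]
    · apply ofn_gen
      rw [List.length_drop, List.length_map, hh]
      omega
  · rintro l ⟨hl, hm, hT⟩ l' ⟨hl', hm', hT'⟩ he
    simp only [Prod.mk.injEq] at he
    obtain ⟨he1, he2, he3⟩ := he
    obtain ⟨i1, i2⟩ := h4 w l
    obtain ⟨j1, j2⟩ := h4 w l'
    have hmm : mask (St C w l) = mask (St C w l') := hm.trans hm'.symm
    simp only [mask, Prod.mk.injEq] at hmm
    obtain ⟨m1, m2⟩ := hmm
    have hF : (St C w l).1 = (St C w l').1 := by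
      rw [← m2] at he1 j2
      exact h3 w (W C w l) (W C w l') (St C w l).1 (St C w l').1 (St C w l).2 t t₁ t₂ Q P
        (C.d C.o (W C w l • C.o) - C.Λ) (C.d C.o (W C w l' • C.o) - C.Λ) ht₁ ht₂
        (Nat.sub_le _ _) (Nat.sub_le _ _) i2 j2 m1 hT hT' he1 he2 he3
    rw [← i1, ← j1, hF, m2]

end code

end PV2Aux

section code

variable {ι G V : Type*} [Fintype ι] [Group G] [MulAction G V] (C : Code ι G V)

theorem PV2 (h1 : FIBStmt ι (List (List ι) × List ι)) (h2 : SMWStmt C) (h3 : TUNStmt C)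
    (h4 : INVStmt C) : PV2Stmt C := by
  intro w n t t₁ t₂ Q P ht₁ ht₂
  have hM1 : (1 : ℝ) ≤ (C.M : ℝ) := by
    have := C.M_big
    exact_mod_cast (by omega : 1 ≤ C.M)
  have hM0 : (0 : ℝ) ≤ (C.M : ℝ) := by linarith
  refine h1 (fun l => mask (St C w l)) n
    (fun l : List ι => if Tp C (W C w l) t₁ t₂ Q P then (1 : ℝ) else 0)
    (fun D => (C.M : ℝ) ^ (8 * t + 8) * ((C.M : ℝ) ^ 3) ^ D.1.length)
    ((C.M : ℝ) ^ (8 * t + 8) * (16 * (C.M : ℝ) ^ 3) ^ n) (by positivity) ?_ ?_
  · intro D _
    refine (le_of_eq (GWP.wsum_congr n _ (fun l : List ι =>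
      @ite ℝ (mask (St C w l) = D ∧ Tp C (W C w l) t₁ t₂ Q P) (Classical.propDecidable _)
        1 0) ?_)).trans ?_
    · intro l _
      by_cases a : mask (St C w l) = D
      · by_cases b : Tp C (W C w l) t₁ t₂ Q P
        · simp [a, b]
        · simp [b]
      · simp [a]
    refine (le_of_eq (GWP.wsum_ncard n
      (fun l : List ι => mask (St C w l) = D ∧ Tp C (W C w l) t₁ t₂ Q P)).symm).trans ?_
    have e2 := PV2Aux.fibre C h3 h4 w n t t₁ t₂ Q P ht₁ ht₂ D
    have e3 : (2 * C.Λ + 1) ^ D.1.length ≤ (C.M ^ 3) ^ D.1.length := by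
      apply Nat.pow_le_pow_left
      have := C.lam
      omega
    have e4 : Fintype.card ι ^ (min (t + 1) D.1.length) ≤ C.M ^ (4 * t + 4) := by
      rw [C.card, ← pow_mul]
      apply Nat.pow_le_pow_right
      · have := C.M_big
        omega
      · have := Nat.min_le_left (t + 1) D.1.length
        omega
    have e5 : C.M ^ (4 * t + 4) * C.M ^ (4 * t + 4) = C.M ^ (8 * t + 8) := by
      rw [← pow_add]
      congr 1
      ring
    have e6 := e2.trans (Nat.mul_le_mul e3 (Nat.mul_le_mul e4 e4))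
    rw [e5] at e6
    have e7 : (({l : List ι | l.length = n ∧
        (mask (St C w l) = D ∧ Tp C (W C w l) t₁ t₂ Q P)}.ncard : ℕ) : ℝ) ≤
        (((C.M ^ 3) ^ D.1.length * C.M ^ (8 * t + 8) : ℕ) : ℝ) := by
      exact_mod_cast e6
    refine e7.trans (le_of_eq ?_)
    push_cast
    ring
  · intro 𝓓 h𝓓
    rw [← Finset.mul_sum]
    exact mul_le_mul_of_nonneg_left (h2 w n 𝓓 h𝓓) (by positivity)

end code

end GWT
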